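import Pool.Agent.H37CG.Gen
import Pool.Agent.N794.CG.Flex
import Pool.Agent.N794.CG.Aut

/-!
# One-parameter families of fields over random integers with exchangeable blocks of digits, and over automatic sets
-/

set_option autoImplicit false

namespace Pool.Agent.H37CG
open Polynomial Finset NumberField Filter
open Pool.Agent.N794.CG (mem acc_mem aut_dom flex_dom scaleB_of)

open Classical in
/-- exchangeable blocks of digits -/
theorem exch (b L : ℕ) (hb : 2 ≤ b) (hL : 1 ≤ L) (η : ℝ) (hη0 : 0 < η) (hη1 : η ≤ 1) (T r : ℕ) (hr : 1 ≤ r) :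
    ∃ δ : ℝ, 0 < δ ∧ ∀ n B U : ℕ, 2 ≤ n → ∃ E k₀ : ℕ, ∀ k : ℕ, k₀ ≤ k → ∀ p : ℕ → ℝ, Pool.Agent.N625.PT.Flex b L η T k p →
    ∀ G : ℤ[X][X], Curve n B ((b : ℤ) ^ (U * k)) G → ∀ ℓ : ℕ, 1 ≤ ℓ → ℓ ≤ k ^ U → ∀ Y : ℝ, 1 ≤ Y →
    ∀ (S : Set ℕ) (K : ℕ → Type) [∀ v, Field (K v)] [∀ v, NumberField (K v)],
    (∀ v ∈ S, Module.finrank ℚ (K v) = n ∧ |(discr (K v) : ℝ)| ≤ Y ∧
      ∃ α : K v, IntermediateField.adjoin ℚ {α} = ⊤ ∧ aeval α (fib G (v : ℤ)) = 0) →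
    ∑ v ∈ range (b ^ k), p v * (if v ∈ S then (Nat.card {x : ClassGroup (𝓞 (K v)) // x ^ ℓ = 1} : ℝ) ^ r else 0) ≤
      ((k : ℝ) ^ E * (√Y * max (Y ^ (-(1 / ((n * (n - 1) * ℓ : ℕ) : ℝ)))) ((b : ℝ) ^ (-(δ * k))))) ^ r := by
  obtain ⟨A, γ, hγ0, hγ1, hdom⟩ := flex_dom b L hb hL η hη0 hη1 T
  obtain ⟨W, hW, H⟩ := curve_gen b hb A γ hγ0 hγ1 r hr
  have hWr : (0 : ℝ) < W := by exact_mod_cast hW
  refine ⟨1 / W, by positivity, fun n B U hn => ?_⟩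
  obtain ⟨E, k₀, J⟩ := H (b.factorial * (b ^ L).factorial) 1
    (Nat.mul_pos (Nat.factorial_pos _) (Nat.factorial_pos _)) one_ne_zero n hn B U U 1
  refine ⟨T + E, k₀ + 1, fun k hk p hp G hG ℓ hℓ1 hℓT Y hY S K _ _ hS => ?_⟩
  have hk1 : (1 : ℝ) ≤ k := by exact_mod_cast (by omega : 1 ≤ k)
  have hd := hdom k (by omega) p hp 1 0
  have e0 : (fun v : ℕ => (0 : ℤ) + 1 * (v : ℕ)) = fun v : ℕ => (v : ℤ) := by
    funext v
    ring
  rw [e0] at hd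
  obtain ⟨S', hS'⟩ : ∃ S' : Set ℤ, S' = {n : ℤ | 0 ≤ n ∧ n ≤ (b : ℤ) ^ (1 * k) ∧ n.toNat ∈ S} := ⟨_, rfl⟩
  have h1 := J k (by omega) G hG ℓ hℓ1 hℓT Y hY S' (fun n => K n.toNat) (by
    intro n hn
    rw [hS'] at hn
    obtain ⟨h1, h2, h3⟩ := hn
    obtain ⟨h4, h5, α, h6, h7⟩ := hS _ h3
    refine ⟨by rw [abs_of_nonneg h1]; exact h2, h4, h5, α, h6, ?_⟩
    rw [Int.toNat_of_nonneg h1] at h7
    exact h7) ((k : ℝ) ^ T) ℕ (range (b ^ k)) p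
    (fun v => (v : ℤ)) (one_le_pow₀ hk1) (fun i _ => hp.nonneg i) hp.sum.le hd
  have e2 : ∑ v ∈ range (b ^ k), p v * (if v ∈ S then (Nat.card {x : ClassGroup (𝓞 (K v)) // x ^ ℓ = 1} : ℝ) ^ r else 0) =
      ∑ v ∈ range (b ^ k), p v * (if (v : ℤ) ∈ S' then
        (Nat.card {x : ClassGroup (𝓞 (K (v : ℤ).toNat)) // x ^ ℓ = 1} : ℝ) ^ r else 0) := by
    apply sum_congr rfl
    intro v hv
    rw [Finset.mem_range] at hv
    have h2 : (v : ℤ) ∈ S' ↔ v ∈ S := by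
      rw [hS', Set.mem_ofPred_eq, Int.toNat_natCast, one_mul]
      constructor
      · exact fun h => h.2.2
      · intro h
        refine ⟨by positivity, ?_, h⟩
        exact_mod_cast hv.le
    simp only [Int.toNat_natCast]
    by_cases hvS : v ∈ S
    · rw [if_pos hvS, if_pos (h2.2 hvS)]
    · rw [if_neg hvS, if_neg (fun h => hvS (h2.1 h))]
  rw [e2]
  refine h1.trans ?_
  have e1 : (b : ℝ) ^ (-((k : ℝ) / W)) = (b : ℝ) ^ (-(1 / (W : ℝ) * k)) := by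
    congr 1
    ring
  rw [e1]
  have hM : 0 ≤ √Y * max (Y ^ (-(1 / ((n * (n - 1) * ℓ : ℕ) : ℝ)))) ((b : ℝ) ^ (-(1 / (W : ℝ) * k))) := by positivity
  have h2 : (k : ℝ) ^ T ≤ ((k : ℝ) ^ T) ^ r := le_self_pow₀ (one_le_pow₀ hk1) (by omega)
  calc (k : ℝ) ^ T * ((k : ℝ) ^ E * (√Y * max (Y ^ (-(1 / ((n * (n - 1) * ℓ : ℕ) : ℝ)))) ((b : ℝ) ^ (-(1 / (W : ℝ) * k))))) ^ r
      ≤ ((k : ℝ) ^ T) ^ r * ((k : ℝ) ^ E * (√Y * max (Y ^ (-(1 / ((n * (n - 1) * ℓ : ℕ) : ℝ)))) ((b : ℝ) ^ (-(1 / (W : ℝ) * k))))) ^ r :=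
        mul_le_mul_of_nonneg_right h2 (by positivity)
    _ = _ := by
        rw [← mul_pow, ← mul_assoc, ← pow_add]

open Classical in
/-- automatic sets -/
theorem aut {σ : Type} [Fintype σ] (b : ℕ) (hb : 2 ≤ b) (M : DFA ℕ σ)
    (hM : ∀ j : ℕ, ∃ᶠ N : ℕ in atTop, Real.log N ^ j < ((mem b M N).card : ℝ)) (r : ℕ) (hr : 1 ≤ r) :
    ∃ δ : ℝ, 0 < δ ∧ ∀ n B U : ℕ, 2 ≤ n → ∃ E N₀ : ℕ, ∀ N : ℕ, N₀ ≤ N →
    ∀ G : ℤ[X][X], Curve n B ((N : ℤ) ^ U) G → ∀ ℓ : ℕ, 1 ≤ ℓ → (ℓ : ℝ) ≤ Real.log N ^ U → ∀ Y : ℝ, 1 ≤ Y →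
    ∀ (S : Set ℕ) (K : ℕ → Type) [∀ v, Field (K v)] [∀ v, NumberField (K v)],
    (∀ v ∈ S, Module.finrank ℚ (K v) = n ∧ |(discr (K v) : ℝ)| ≤ Y ∧
      ∃ α : K v, IntermediateField.adjoin ℚ {α} = ⊤ ∧ aeval α (fib G (v : ℤ)) = 0) →
    ∑ v ∈ mem b M N, (if v ∈ S then (Nat.card {x : ClassGroup (𝓞 (K v)) // x ^ ℓ = 1} : ℝ) ^ r else 0) ≤ (mem b M N).card *
      (Real.log N ^ E * (√Y * max (Y ^ (-(1 / ((n * (n - 1) * ℓ : ℕ) : ℝ)))) ((N : ℝ) ^ (-δ)))) ^ r := by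
  obtain ⟨B₀, A, e₀, N₀, hB₀, hdom⟩ := aut_dom b hb M (by
    intro j
    refine (hM j).mono fun N hN => ?_
    rw [acc_mem]
    exact hN)
  obtain ⟨W, hW, H⟩ := curve_gen B₀ hB₀ A (1 / 2) (by norm_num) (by norm_num) r hr
  have hWr : (0 : ℝ) < W := by exact_mod_cast hW
  refine ⟨1 / W, by positivity, fun n B U hn => ?_⟩
  obtain ⟨E, k₀, J⟩ := H B₀.factorial 1 (Nat.factorial_pos _) one_ne_zero n hn B U (2 * U) 1
  refine ⟨2 * E + e₀, N₀ + B₀ ^ (k₀ + B₀) + 32, fun N hN G hG ℓ hℓ1 hℓT Y hY S K _ _ hS => ?_⟩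
  have hN1 : 1 ≤ N := by omega
  have hNr : (1 : ℝ) ≤ N := by exact_mod_cast hN1
  obtain ⟨k, hk⟩ : ∃ k, k = Nat.log B₀ N + 1 := ⟨_, rfl⟩
  have hsc := scaleB_of B₀ hB₀ N hN1
  rw [← hk] at hsc
  have hkk : k₀ + B₀ ≤ k := by
    have h1 : B₀ ^ (k₀ + B₀) ≤ N := by omega
    have h2 : k₀ + B₀ ≤ Nat.log B₀ N := Nat.le_log_of_pow_le (by omega) h1
    omega
  have hlogN : (1 : ℝ) ≤ Real.log N := by
    rw [Real.le_log_iff_exp_le (by linarith)]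
    have h1 := Real.exp_one_lt_d9
    have h2 : (32 : ℝ) ≤ N := by exact_mod_cast (by omega : 32 ≤ N)
    linarith
  have hd := hdom N (by omega) 1 0
  rw [← hk] at hd
  have e0 : (fun v : ℕ => (0 : ℤ) + 1 * (v : ℕ)) = fun v : ℕ => (v : ℤ) := by
    funext v
    ring
  rw [e0] at hd
  rcases Nat.eq_zero_or_pos (mem b M N).card with h0 | h0
  · rw [card_eq_zero.1 h0]
    simp
  have hc0 : (0 : ℝ) < (mem b M N).card := by exact_mod_cast h0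
  obtain ⟨S', hS'⟩ : ∃ S' : Set ℤ, S' = {n : ℤ | 0 ≤ n ∧ n ≤ (B₀ : ℤ) ^ (1 * k) ∧ n.toNat ∈ S} := ⟨_, rfl⟩
  have hNB : (N : ℤ) ^ U ≤ (B₀ : ℤ) ^ (U * k) := by
    have h2 : (N : ℤ) ≤ (B₀ : ℤ) ^ k := by exact_mod_cast hsc.high.le
    rw [mul_comm U k, pow_mul]
    exact pow_le_pow_left₀ (by positivity) h2 U
  have h1 := J k (by omega) G ⟨hG.monic, hG.deg, hG.degx, fun i j => (hG.height i j).trans hNB, hG.irr⟩ ℓ hℓ1
    (hsc.nat_le hB₀ hN1 (by omega) U ℓ hℓT) Y hY S' (fun n => K n.toNat) (by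
    intro n hn
    rw [hS'] at hn
    obtain ⟨h1, h2, h3⟩ := hn
    obtain ⟨h4, h5, α, h6, h7⟩ := hS _ h3
    refine ⟨by rw [abs_of_nonneg h1]; exact h2, h4, h5, α, h6, ?_⟩
    rw [Int.toNat_of_nonneg h1] at h7
    exact h7) (Real.log N ^ e₀) ℕ (mem b M N) (fun _ => 1 / ((mem b M N).card : ℝ))
    (fun v => (v : ℤ)) (one_le_pow₀ hlogN) (fun i _ => by positivity) (by
      rw [sum_const, nsmul_eq_mul, mul_one_div, div_self hc0.ne']) hd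
  have e2 : ∑ v ∈ mem b M N, (if v ∈ S then (Nat.card {x : ClassGroup (𝓞 (K v)) // x ^ ℓ = 1} : ℝ) ^ r else 0) = (mem b M N).card *
      ∑ v ∈ mem b M N, (1 / ((mem b M N).card : ℝ)) *
        (if (v : ℤ) ∈ S' then (Nat.card {x : ClassGroup (𝓞 (K (v : ℤ).toNat)) // x ^ ℓ = 1} : ℝ) ^ r else 0) := by
    rw [mul_sum]
    apply sum_congr rfl
    intro v hv
    have hvN : v < N := by
      unfold mem at hv
      exact Finset.mem_range.1 (Finset.mem_filter.1 hv).1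
    have h2 : (v : ℤ) ∈ S' ↔ v ∈ S := by
      rw [hS', Set.mem_ofPred_eq, Int.toNat_natCast, one_mul]
      constructor
      · exact fun h => h.2.2
      · intro h
        refine ⟨by positivity, ?_, h⟩
        exact_mod_cast (hvN.trans hsc.high).le
    simp only [Int.toNat_natCast]
    rw [← mul_assoc, mul_one_div, div_self hc0.ne', one_mul]
    by_cases hvS : v ∈ S
    · rw [if_pos hvS, if_pos (h2.2 hvS)]
    · rw [if_neg hvS, if_neg (fun h => hvS (h2.1 h))]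
  rw [e2]
  apply mul_le_mul_of_nonneg_left _ hc0.le
  exact h1.trans (hsc.bound hB₀ (by omega) E W r e₀ hr Y _ hY)

/-- the double coverings -/
lemma curve_sq (f : ℤ[X]) (D : ℕ) (hD : f.natDegree ≤ D) (M : ℤ) (hM : 1 ≤ M) (hf : ∀ i, |f.coeff i| ≤ M)
    (hsq : ¬ IsSquare (f.map (Int.castRingHom ℂ))) : Curve 2 D M (X ^ 2 - C f) := by
  have hmon : ∀ {R : Type} [CommRing R] (g : R), (X ^ 2 - C g : R[X]).Monic := fun g => monic_X_pow_sub_C g two_ne_zero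
  have hdeg : ∀ {R : Type} [CommRing R] [Nontrivial R] (g : R), (X ^ 2 - C g : R[X]).natDegree = 2 := fun g => natDegree_X_pow_sub_C
  have hco : ∀ i, (X ^ 2 - C f : ℤ[X][X]).coeff i = if i = 2 then 1 else if i = 0 then -f else 0 := by
    intro i
    rw [coeff_sub, coeff_X_pow, coeff_C]
    by_cases h2 : i = 2
    · subst h2
      simp
    · by_cases h0 : i = 0
      · subst h0
        simp
      · simp [h2, h0]
  refine ⟨hmon f, hdeg f, fun i => ?_, fun i j => ?_, ?_⟩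
  · rw [hco]
    split_ifs
    · simp
    · rw [natDegree_neg]
      exact hD
    · simp
  · rw [hco]
    split_ifs
    · rw [coeff_one]
      split_ifs
      · simpa using hM
      · simp only [abs_zero]
        linarith
    · rw [coeff_neg, abs_neg]
      exact hf j
    · simp only [coeff_zero, abs_zero]
      linarith
  · have e1 : (X ^ 2 - C f : ℤ[X][X]).map (mapRingHom (Int.castRingHom ℂ)) = X ^ 2 - C (f.map (Int.castRingHom ℂ)) := by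
      rw [Polynomial.map_sub, Polynomial.map_pow, map_X, map_C, coe_mapRingHom]
    rw [e1, Monic.irreducible_iff_roots_eq_zero_of_degree_le_three (hmon _) (by rw [hdeg]) (by rw [hdeg]; norm_num)]
    rw [Multiset.eq_zero_iff_forall_notMem]
    intro a ha
    rw [mem_roots (hmon _).ne_zero, IsRoot, eval_sub, eval_pow, eval_X, eval_C, sub_eq_zero] at ha
    exact hsq ⟨a, by rw [← ha, sq]⟩

lemma fib_sq (f : ℤ[X]) (v : ℤ) : fib (X ^ 2 - C f) v = X ^ 2 - C (f.eval v) := by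
  unfold fib
  rw [Polynomial.map_sub, Polynomial.map_pow, map_X, map_C, coe_evalRingHom]

end Pool.Agent.H37CG
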