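import Pool.Agent.H37CG.LocG
import Pool.Agent.H37CG.Core
import Pool.Agent.N794.CG.Quad

/-!
# The moments of the torsion of the class groups of the fields in a one-parameter family

The fields `K_v` are generated by a root of `G(v, y)`, `G` an absolutely irreducible polynomial, and `v` is a random integer with
small characteristic function. Everything is uniform in `G`.
-/

set_option autoImplicit false

namespace Pool.Agent.H37CG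
open Polynomial Finset NumberField Filter
open Pool.Agent.R459.Eq (Decays Per mean pi_lower')
open Pool.Agent.R459.Tor
open Pool.Agent.N794.CG (Dom numSur numSur_le)
open Pool.Agent.H730R2.AA hiding PR

/-- the polynomials which are allowed -/
structure Curve (n B : ℕ) (M : ℤ) (G : ℤ[X][X]) : Prop where
  monic : G.Monic
  deg : G.natDegree = n
  degx : ∀ i, (G.coeff i).natDegree ≤ B
  height : ∀ i j, |(G.coeff i).coeff j| ≤ M
  irr : Irreducible (G.map (mapRingHom (Int.castRingHom ℂ)))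

/-- the values of a polynomial -/
lemma eval_le (f : ℤ[X]) (D : ℕ) (hD : f.natDegree ≤ D) (M Z : ℤ) (hM : 0 ≤ M) (hZ : 1 ≤ Z) (hf : ∀ i, |f.coeff i| ≤ M) (v : ℤ)
    (hv : |v| ≤ Z) : |f.eval v| ≤ (D + 1) * (M * Z ^ D) := by
  rw [eval_eq_sum_range]
  calc |∑ i ∈ range (f.natDegree + 1), f.coeff i * v ^ i| ≤ ∑ i ∈ range (f.natDegree + 1), |f.coeff i * v ^ i| := abs_sum_le_sum_abs _ _
    _ ≤ ∑ _i ∈ range (f.natDegree + 1), M * Z ^ D := by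
        apply sum_le_sum
        intro i hi
        rw [Finset.mem_range] at hi
        rw [abs_mul, abs_pow]
        apply mul_le_mul (hf i) _ (by positivity) hM
        calc |v| ^ i ≤ Z ^ i := pow_le_pow_left₀ (abs_nonneg _) hv i
          _ ≤ Z ^ D := pow_le_pow_right₀ hZ (by omega)
    _ = (f.natDegree + 1) * (M * Z ^ D) := by
        rw [sum_const, card_range, nsmul_eq_mul]
        push_cast
        ring
    _ ≤ _ := by
        apply mul_le_mul_of_nonneg_right _ (by positivity)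
        have : (f.natDegree : ℤ) ≤ D := by exact_mod_cast hD
        linarith

/-- the fibres have small coefficients -/
lemma small_fib {b n B U V k : ℕ} (hb : 2 ≤ b) (hk : B + 1 ≤ k) {G : ℤ[X][X]} (hG : Curve n B ((b : ℤ) ^ (U * k)) G) (v : ℤ)
    (hv : |v| ≤ (b : ℤ) ^ (V * k)) : Small n ((b : ℤ) ^ ((U + V * B + 1) * k)) (fib G v) := by
  have hb1 : (1 : ℤ) ≤ b := by exact_mod_cast (by omega : 1 ≤ b)
  refine ⟨hG.monic.map _, ?_, fun i => ?_⟩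
  · unfold fib
    rw [hG.monic.natDegree_map, hG.deg]
  · unfold fib
    rw [coeff_map, coe_evalRingHom]
    have h6 := eval_le (G.coeff i) B (hG.degx i) ((b : ℤ) ^ (U * k)) ((b : ℤ) ^ (V * k)) (by positivity) (one_le_pow₀ hb1)
      (hG.height i) v hv
    refine h6.trans ?_
    have h7 : (B : ℤ) + 1 ≤ (b : ℤ) ^ k := by
      have h8 : B + 1 ≤ b ^ k := by
        calc B + 1 ≤ k := hk
          _ ≤ 2 ^ k := Nat.lt_two_pow_self.le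
          _ ≤ b ^ k := Nat.pow_le_pow_left hb k
      exact_mod_cast h8
    calc ((B : ℤ) + 1) * ((b : ℤ) ^ (U * k) * ((b : ℤ) ^ (V * k)) ^ B) ≤
          (b : ℤ) ^ k * ((b : ℤ) ^ (U * k) * ((b : ℤ) ^ (V * k)) ^ B) := mul_le_mul_of_nonneg_right h7 (by positivity)
      _ = (b : ℤ) ^ ((U + V * B + 1) * k) := by
          rw [← pow_mul, ← pow_add, ← pow_add]
          congr 1
          ring

/-- there are enough good primes -/
theorem good_primes (b : ℕ) (hb : 2 ≤ b) (n B U : ℕ) (hn : 1 ≤ n) : ∃ k₀ : ℕ, ∀ k : ℕ, k₀ ≤ k → ∀ x : ℕ, 2 ^ 20 ≤ x → k ^ 4 ≤ x →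
    ∀ G : ℤ[X][X], Curve n B ((b : ℤ) ^ (U * k)) G → ∃ Q : Finset ℕ, Q ⊆ PR x ∧ 9 / 20 * (Nat.primeCounting x : ℝ) ≤ Q.card ∧
      ∀ p ∈ Q, 1 / (2 * (n : ℝ)) ≤ mean p (hg G p) := by
  classical
  obtain ⟨Cd, e, P₀, H⟩ := local_main n B hn
  refine ⟨160 * (Cd + b * U * e) + P₀ + 1, fun k hk x hx20 hkx G hG => ?_⟩
  have hb1 : (1 : ℤ) ≤ b := by exact_mod_cast (by omega : 1 ≤ b)
  obtain ⟨N, hN0, hN1, hN2⟩ := H G hG.monic hG.deg hG.degx hG.irr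
  have hN1 := hN1 ((b : ℤ) ^ (U * k)) (one_le_pow₀ hb1) hG.height
  have hk1 : (1 : ℝ) ≤ k := by exact_mod_cast (by omega : 1 ≤ k)
  refine ⟨(PR x).filter (fun p : ℕ => ¬ (p : ℤ) ∣ N), filter_subset _ _, ?_, fun p hp => ?_⟩
  · obtain ⟨hpi, _, _⟩ := pi_lower' x (by omega)
    obtain ⟨h1, _⟩ := PR_card x hx20
    obtain ⟨Bd, hBd⟩ : ∃ Bd : Finset ℕ, Bd = (PR x).filter (fun p : ℕ => (p : ℤ) ∣ N) := ⟨_, rfl⟩
    have h2 : 2 ^ Bd.card ≤ N.natAbs := by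
      apply primes_dvd N.natAbs (Int.natAbs_ne_zero.2 hN0)
      intro p hp
      rw [hBd, Finset.mem_filter] at hp
      exact ⟨(mem_PR.1 hp.1).2.1, Int.natCast_dvd.1 hp.2⟩
    have h3 : N.natAbs ≤ 2 ^ (Cd + b * (U * e) * k) := by
      have h4 : (N.natAbs : ℤ) ≤ Cd * ((b : ℤ) ^ (U * k)) ^ e := by
        rw [Int.natCast_natAbs]
        exact hN1
      have h5 : N.natAbs ≤ Cd * (b ^ (U * k)) ^ e := by exact_mod_cast h4
      refine h5.trans ?_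
      rw [pow_add, ← pow_mul]
      apply Nat.mul_le_mul Nat.lt_two_pow_self.le
      calc b ^ (U * k * e) ≤ (2 ^ b) ^ (U * k * e) := Nat.pow_le_pow_left Nat.lt_two_pow_self.le _
        _ = 2 ^ (b * (U * e) * k) := by
            rw [← pow_mul]
            congr 1
            ring
    have h4 : Bd.card ≤ Cd + b * (U * e) * k := (Nat.pow_le_pow_iff_right (by norm_num : 1 < 2)).1 (h2.trans h3)
    have h5 : (Bd.card : ℝ) ≤ (Cd + b * (U * e)) * k := by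
      have h6 : (Bd.card : ℝ) ≤ Cd + b * (U * e) * k := by exact_mod_cast h4
      have h7 : (Cd : ℝ) ≤ Cd * k := le_mul_of_one_le_right (Nat.cast_nonneg _) hk1
      linarith
    have h6 : (k : ℝ) ^ 2 ≤ √x := by
      apply Real.le_sqrt_of_sq_le
      have : ((k ^ 4 : ℕ) : ℝ) ≤ x := by exact_mod_cast hkx
      push_cast at this
      nlinarith
    have h7 : 160 * ((Cd : ℝ) + b * (U * e)) ≤ k := by
      have : ((160 * (Cd + b * U * e) : ℕ) : ℝ) ≤ k := by exact_mod_cast (by omega : 160 * (Cd + b * U * e) ≤ k)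
      push_cast at this
      linarith
    have h8 : 160 * (((Cd : ℝ) + b * (U * e)) * k) ≤ k ^ 2 := by nlinarith
    have h9 := card_filter_add_card_filter_not (s := PR x) (fun p : ℕ => (p : ℤ) ∣ N)
    rw [← hBd] at h9
    have h10 : ((PR x).card : ℝ) = Bd.card + ((PR x).filter (fun p : ℕ => ¬ (p : ℤ) ∣ N)).card := by exact_mod_cast h9.symm
    linarith
  · rw [Finset.mem_filter] at hp
    have h1 := mem_PR.1 hp.1
    refine hN2 p h1.2.1 ?_ hp.2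
    by_contra hcon
    push Not at hcon
    have h2 : p * p ≤ k * k := Nat.mul_le_mul (by omega) (by omega)
    have h3 : k * k ≤ k ^ 4 := by
      have : k ^ 4 = (k * k) * (k * k) := by ring
      rw [this]
      exact Nat.le_mul_self _
    omega

lemma sum_hg (G : ℤ[X][X]) (Q : Finset ℕ) (x : ℕ) (hQ : Q ⊆ PR x) (v : ℤ) : ∑ p ∈ Q, hg G p v ≤ cntH (fib G v) 1 x 0 := by
  classical
  unfold hg cntH
  rw [← sum_filter, sum_const, nsmul_eq_mul, mul_one]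
  apply Nat.cast_le.2
  apply card_le_card
  intro p hp
  rw [Finset.mem_filter] at hp ⊢
  exact ⟨hQ hp.1, hp.2⟩

/-- one scale -/
theorem curve_scale (b : ℕ) (hb : 2 ≤ b) (A₀ : ℕ) (γ : ℝ) (hγ0 : 0 < γ) (hγ1 : γ < 1) (r : ℕ) (hr : 1 ≤ r) : ∃ W : ℕ, 1 ≤ W ∧
    ∀ (F₀ : ℕ) (κ : ℤ), 1 ≤ F₀ → κ ≠ 0 → ∀ n : ℕ, 1 ≤ n → ∃ C : ℝ, 0 < C ∧ ∀ B U : ℕ, ∃ k₀ : ℕ, ∀ k : ℕ, k₀ ≤ k →
    ∀ G : ℤ[X][X], Curve n B ((b : ℤ) ^ (U * k)) G → ∀ x : ℕ, k ^ 4 ≤ x → x ^ W ≤ b ^ k →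
    ∀ (Λ : ℝ) (ι : Type) (Ω : Finset ι) (w : ι → ℝ) (v : ι → ℤ), Dom b F₀ A₀ k γ κ Λ Ω w v →
    ∀ E : Finset ι, E ⊆ Ω →
      (∀ i ∈ E, ¬ ((Nat.primeCounting x : ℝ) / (8 * n) ≤ (cntH (fib G (v i)) 1 x 0 : ℝ))) →
      ∑ i ∈ E, w i ≤ Λ * (C * (Real.log x ^ 2 / x) ^ r) := by
  classical
  obtain ⟨W, hW, H⟩ := one_scale_gen b hb A₀ γ hγ0 hγ1 r hr
  refine ⟨W, hW, fun F₀ κ hF₀ hκ n hn => ?_⟩
  obtain ⟨C, X₀, hC, hX₀, J⟩ := H F₀ κ hF₀ hκ n hn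
  refine ⟨C, hC, fun B U => ?_⟩
  obtain ⟨k₁, hk₁⟩ := good_primes b hb n B U hn
  refine ⟨k₁ + X₀, fun k hk G hG x hkx hxW Λ ι Ω w v hdom E hE hbad => ?_⟩
  have hkk : k ≤ k ^ 4 := Nat.le_self_pow (by norm_num) k
  have hx20 : 2 ^ 20 ≤ x := by omega
  obtain ⟨Q, hQ, hQc, hQm⟩ := hk₁ k (by omega) x hx20 hkx G hG
  have hlog0 : 0 ≤ Real.log (x : ℝ) := Real.log_natCast_nonneg x
  refine hdom (fun u => (Nat.primeCounting x : ℝ) / (8 * n) ≤ (cntH (fib G u) 1 x 0 : ℝ))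
    (C * (Real.log x ^ 2 / x) ^ r) (by positivity) (fun ι' Ω' w' v' hdec E' hE' hbad' => ?_) E hE hbad
  refine J k x (by omega) hxW ι' Ω' w' v' hdec (hg G) Q hQ hQc (hg_mem G) (fun p hp => hg_per G p (mem_PR.1 (hQ hp)).2.1) hQm
    E' hE' (fun i hi => ?_)
  exact lt_of_le_of_lt (sum_hg G Q x hQ (v' i)) (not_le.1 (hbad' i hi))

open Classical in
/-- **the moments of the torsion of the class groups in a one-parameter family of fields** -/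
theorem curve_gen (b : ℕ) (hb : 2 ≤ b) (A₀ : ℕ) (γ : ℝ) (hγ0 : 0 < γ) (hγ1 : γ < 1) (r : ℕ) (hr : 1 ≤ r) : ∃ W : ℕ, 1 ≤ W ∧
    ∀ (F₀ : ℕ) (κ : ℤ), 1 ≤ F₀ → κ ≠ 0 → ∀ n : ℕ, 2 ≤ n → ∀ B U T V : ℕ, ∃ B₂ k₀ : ℕ, ∀ k : ℕ, k₀ ≤ k →
    ∀ G : ℤ[X][X], Curve n B ((b : ℤ) ^ (U * k)) G → ∀ ℓ : ℕ, 1 ≤ ℓ → ℓ ≤ k ^ T →
    ∀ Y : ℝ, 1 ≤ Y → ∀ (S : Set ℤ) (K : ℤ → Type) [∀ v, Field (K v)] [∀ v, NumberField (K v)],
    (∀ v ∈ S, |v| ≤ (b : ℤ) ^ (V * k) ∧ Module.finrank ℚ (K v) = n ∧ |(discr (K v) : ℝ)| ≤ Y ∧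
      ∃ α : K v, IntermediateField.adjoin ℚ {α} = ⊤ ∧ aeval α (fib G v) = 0) →
    ∀ (Λ : ℝ) (ι : Type) (Ω : Finset ι) (w : ι → ℝ) (v : ι → ℤ), 1 ≤ Λ → (∀ i ∈ Ω, 0 ≤ w i) → ∑ i ∈ Ω, w i ≤ 1 →
    Dom b F₀ A₀ k γ κ Λ Ω w v →
    ∑ i ∈ Ω, w i * (if v i ∈ S then (Nat.card {x : ClassGroup (𝓞 (K (v i))) // x ^ ℓ = 1} : ℝ) ^ r else 0) ≤
      Λ * ((k : ℝ) ^ B₂ * (√Y * max (Y ^ (-(1 / ((n * (n - 1) * ℓ : ℕ) : ℝ)))) ((b : ℝ) ^ (-((k : ℝ) / W))))) ^ r := by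
  obtain ⟨W, hW, H⟩ := curve_scale b hb A₀ γ hγ0 hγ1 r hr
  refine ⟨W, hW, fun F₀ κ hF₀ hκ n hn B U T V => ?_⟩
  obtain ⟨C, hC, H1⟩ := H F₀ κ hF₀ hκ n (by omega)
  obtain ⟨k₁, H2⟩ := H1 B U
  obtain ⟨B₂, k₂, J⟩ := torsion_core b hb r hr W hW n hn T 4 (U + V * B + 1) le_rfl C hC
  refine ⟨B₂, k₁ + k₂ + B + 1, fun k hk G hG ℓ hℓ hℓT Y hY S K _ _ hS Λ ι Ω w v hΛ hw hw1 hdom => ?_⟩
  exact J k (by omega) ℓ hℓ hℓT Y hY (fun v => fib G v) S K (by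
    intro v hv
    obtain ⟨h1, h2, h3, α, h4, h5⟩ := hS v hv
    exact ⟨small_fib hb (by omega) hG v h1, h2, h3, α, h4, h5⟩) Λ ι Ω w v hΛ hw hw1 (fun s hs1 hs2 =>
    H2 k (by omega) G hG (2 ^ s) hs1 hs2 Λ ι Ω w v hdom _ (filter_subset _ _) (fun i hi => (Finset.mem_filter.1 hi).2))

end Pool.Agent.H37CG
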