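import Pool.Agent.R459.Tor3
import Pool.Agent.R459.Tor6
import Pool.Agent.N568.HX.NF
import Pool.Agent.N861.HX.WB

/-!
# The fibres of a plane curve over a finite field with a simple point, uniformly in the curve
-/

set_option autoImplicit false

namespace Pool.Agent.H37CG
open Polynomial Finset
open Pool.Agent.R459.Eq (Per mean)
open Pool.Agent.R459.Tor (PR mem_PR Hit cntH PR_card)
open Pool.Agent.N89.HX (bp)

/-- the fibre over `v` -/
noncomputable def fib (G : ℤ[X][X]) (v : ℤ) : ℤ[X] := G.map (evalRingHom v)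

/-- the values of a polynomial in many variables -/
lemma mv_bound {σ : Type} (Q : MvPolynomial σ ℤ) : ∃ C e : ℕ, ∀ (M : ℤ) (x : σ → ℤ), 1 ≤ M → (∀ i, |x i| ≤ M) →
    |MvPolynomial.aeval x Q| ≤ C * M ^ e := by
  induction Q using MvPolynomial.induction_on with
  | C a =>
    refine ⟨a.natAbs, 0, fun M x hM hx => ?_⟩
    simp
  | add p q hp hq =>
    obtain ⟨C₁, e₁, h₁⟩ := hp
    obtain ⟨C₂, e₂, h₂⟩ := hq
    refine ⟨C₁ + C₂, e₁ + e₂, fun M x hM hx => ?_⟩
    rw [map_add]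
    have a1 : M ^ e₁ ≤ M ^ (e₁ + e₂) := pow_le_pow_right₀ hM (by omega)
    have a2 : M ^ e₂ ≤ M ^ (e₁ + e₂) := pow_le_pow_right₀ hM (by omega)
    calc |MvPolynomial.aeval x p + MvPolynomial.aeval x q| ≤ |MvPolynomial.aeval x p| + |MvPolynomial.aeval x q| := abs_add_le _ _
      _ ≤ C₁ * M ^ e₁ + C₂ * M ^ e₂ := add_le_add (h₁ M x hM hx) (h₂ M x hM hx)
      _ ≤ C₁ * M ^ (e₁ + e₂) + C₂ * M ^ (e₁ + e₂) := by gcongr
      _ = _ := by push_cast; ring
  | mul_X p i hp =>
    obtain ⟨C₁, e₁, h₁⟩ := hp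
    refine ⟨C₁, e₁ + 1, fun M x hM hx => ?_⟩
    rw [map_mul, MvPolynomial.aeval_X, abs_mul, pow_succ, ← mul_assoc]
    exact mul_le_mul (h₁ M x hM hx) (hx i) (abs_nonneg _) (by positivity)

lemma fib_map (G : ℤ[X][X]) (v : ℤ) {R : Type} [CommRing R] (φ : ℤ →+* R) :
    (fib G v).map φ = (G.map (mapRingHom φ)).map (evalRingHom (φ v)) := by
  unfold fib
  rw [Polynomial.map_map, Polynomial.map_map]
  congr 1
  refine RingHom.ext fun p => ?_
  simp only [RingHom.coe_comp, Function.comp_apply, coe_evalRingHom, coe_mapRingHom]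
  exact (Polynomial.eval_map_apply φ v).symm

open scoped Classical in
/-- the indicator function of the fibres with a simple point modulo `p` -/
noncomputable def hg (G : ℤ[X][X]) (p : ℕ) (v : ℤ) : ℝ := if Hit (fib G v) 1 p 0 then 1 else 0

lemma hg_mem (G : ℤ[X][X]) (p : ℕ) (v : ℤ) : 0 ≤ hg G p v ∧ hg G p v ≤ 1 := by
  unfold hg
  split_ifs <;> norm_num

lemma hit_iff (P : ℤ[X]) (p : ℕ) [Fact p.Prime] : Hit P 1 p 0 ↔
    ∃ a : ZMod p, (P.map (Int.castRingHom (ZMod p))).eval a = 0 ∧ (P.map (Int.castRingHom (ZMod p))).derivative.eval a ≠ 0 := by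
  have key : ∀ (Q : ℤ[X]) (a : ℤ), (p : ℤ) ∣ Q.eval a ↔ (Q.map (Int.castRingHom (ZMod p))).eval (a : ZMod p) = 0 := by
    intro Q a
    rw [Pool.Agent.R459.Tor.eval_map_int, ZMod.intCast_zmod_eq_zero_iff_dvd]
  unfold Hit
  constructor
  · rintro ⟨a, h1, h2⟩
    refine ⟨(a : ZMod p), ?_, ?_⟩
    · rw [mul_zero, sub_zero] at h1
      exact (key P a).1 h1
    · rw [derivative_map]
      exact fun h => h2 ((key _ a).2 h)
  · rintro ⟨a, h1, h2⟩
    have ha : (((a.val : ℕ) : ℤ) : ZMod p) = a := by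
      rw [Int.cast_natCast, ZMod.natCast_zmod_val]
    refine ⟨((a.val : ℕ) : ℤ), ?_, ?_⟩
    · rw [mul_zero, sub_zero, key, ha]
      exact h1
    · rw [key, ha, ← derivative_map]
      exact h2

lemma hg_per (G : ℤ[X][X]) (p : ℕ) (hp : p.Prime) : Per p (hg G p) := by
  have : Fact p.Prime := ⟨hp⟩
  intro m n h
  have h1 : ((m : ℤ) : ZMod p) = ((n : ℤ) : ZMod p) := by
    rw [← sub_eq_zero, ← Int.cast_sub, ZMod.intCast_zmod_eq_zero_iff_dvd]
    exact h
  have h2 : (fib G m).map (Int.castRingHom (ZMod p)) = (fib G n).map (Int.castRingHom (ZMod p)) := by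
    rw [fib_map, fib_map]
    simp only [eq_intCast]
    rw [h1]
  unfold hg
  congr 1
  rw [hit_iff, hit_iff, h2]

/-- **the uniform local statement** -/
theorem local_main (n B : ℕ) (hn : 1 ≤ n) : ∃ Cd e P₀ : ℕ, ∀ G : ℤ[X][X], G.Monic → G.natDegree = n →
    (∀ i, (G.coeff i).natDegree ≤ B) → Irreducible (G.map (mapRingHom (Int.castRingHom ℂ))) →
    ∃ N : ℤ, N ≠ 0 ∧ (∀ M : ℤ, 1 ≤ M → (∀ i j, |(G.coeff i).coeff j| ≤ M) → |N| ≤ Cd * M ^ e) ∧
      ∀ p : ℕ, p.Prime → P₀ ≤ p → ¬ (p : ℤ) ∣ N → 1 / (2 * (n : ℝ)) ≤ mean p (hg G p) := by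
  classical
  obtain ⟨J, hJ, Δ, hΔ⟩ := Pool.Agent.N568.HX.NF.main n B hn
  obtain ⟨C₀, hC₀⟩ := Pool.Agent.N861.HX.main n B hn
  have := Fintype.ofFinite J
  choose Cj ej hj using fun j : J => mv_bound (Δ j)
  refine ⟨∑ j, Cj j, ∑ j, ej j, 4 * (C₀ * C₀) + C₀ + 1, fun G hG hGn hGB hirr => ?_⟩
  obtain ⟨h, hh⟩ : ∃ h : Fin n → Fin (B + 1) → ℤ, h = fun (i : Fin n) (j : Fin (B + 1)) => (G.coeff i).coeff j := ⟨_, rfl⟩
  have hGbp : G = bp h := by
    rw [hh]
    exact Pool.Agent.N568.HX.NF.eq_bp G hG hGn hGB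
  have hGφ : ∀ {R : Type} [CommRing R] (φ : ℤ →+* R), G.map (mapRingHom φ) = bp (fun i j => φ (h i j)) := by
    intro R _ φ
    rw [hGbp]
    exact Pool.Agent.N568.HX.NF.bp_map φ h
  have hcast : ∀ (R : Type) [CommRing R] (j : J), MvPolynomial.aeval (fun ij : Fin n × Fin (B + 1) => ((h ij.1 ij.2 : ℤ) : R)) (Δ j) =
      ((MvPolynomial.aeval (fun ij : Fin n × Fin (B + 1) => h ij.1 ij.2) (Δ j) : ℤ) : R) := by
    intro R _ j
    have := MvPolynomial.aeval_algebraMap_apply (A := ℤ) (B := R) (fun ij : Fin n × Fin (B + 1) => h ij.1 ij.2) (Δ j)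
    simp only [algebraMap_int_eq, eq_intCast] at this
    exact this
  rw [hGφ] at hirr
  simp only [eq_intCast] at hirr
  obtain ⟨j, hj1⟩ := (hΔ ℂ (fun i j => ((h i j : ℤ) : ℂ))).1 hirr
  rw [hcast ℂ j] at hj1
  obtain ⟨N, hN⟩ : ∃ N : ℤ, N = MvPolynomial.aeval (fun ij : Fin n × Fin (B + 1) => h ij.1 ij.2) (Δ j) := ⟨_, rfl⟩
  rw [← hN] at hj1
  have hN0 : N ≠ 0 := fun h0 => hj1 (by rw [h0, Int.cast_zero])
  refine ⟨N, hN0, fun M hM hco => ?_, fun p hp hpP hpN => ?_⟩
  · rw [hN]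
    refine (hj j M _ hM fun ij => ?_).trans ?_
    · rw [hh]
      exact hco _ _
    · have h1 : Cj j ≤ ∑ j, Cj j := single_le_sum (f := Cj) (fun _ _ => Nat.zero_le _) (mem_univ j)
      have h2 : ej j ≤ ∑ j, ej j := single_le_sum (f := ej) (fun _ _ => Nat.zero_le _) (mem_univ j)
      have h3 : M ^ ej j ≤ M ^ (∑ j, ej j) := pow_le_pow_right₀ hM h2
      have h4 : ((Cj j : ℕ) : ℤ) ≤ ((∑ j, Cj j : ℕ) : ℤ) := by exact_mod_cast h1
      have h5 : (0 : ℤ) ≤ M ^ (∑ j, ej j) := by positivity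
      calc (Cj j : ℤ) * M ^ ej j ≤ (Cj j : ℤ) * M ^ (∑ j, ej j) := mul_le_mul_of_nonneg_left h3 (by positivity)
        _ ≤ _ := mul_le_mul_of_nonneg_right h4 h5
  · have : Fact p.Prime := ⟨hp⟩
    have hpC : C₀ ≤ p := by omega
    obtain ⟨h', hh'⟩ : ∃ h' : Fin n → Fin (B + 1) → ZMod p, h' = fun i j => ((h i j : ℤ) : ZMod p) := ⟨_, rfl⟩
    have hbp' : G.map (mapRingHom (Int.castRingHom (ZMod p))) = bp h' := by
      rw [hGφ, hh']
      simp only [eq_intCast]
    have hirr' : Irreducible (bp (fun i j => algebraMap (ZMod p) (AlgebraicClosure (ZMod p)) (h' i j))) := by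
      have e1 : (fun i j => algebraMap (ZMod p) (AlgebraicClosure (ZMod p)) (h' i j)) =
          fun i j => ((h i j : ℤ) : AlgebraicClosure (ZMod p)) := by
        funext i j
        rw [hh']
        simp
      rw [e1, hΔ]
      refine ⟨j, ?_⟩
      rw [hcast, ← hN]
      intro h0
      apply hpN
      have : CharP (AlgebraicClosure (ZMod p)) p := charP_of_injective_algebraMap (algebraMap (ZMod p) (AlgebraicClosure (ZMod p))).injective p
      exact (CharP.intCast_eq_zero_iff (AlgebraicClosure (ZMod p)) p N).1 h0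
    have hw := hC₀ (ZMod p) (AlgebraicClosure (ZMod p)) h' (by rw [ZMod.ringChar_zmod_n]; exact hpC) hirr'
    rw [ZMod.card] at hw
    obtain ⟨A, hA⟩ : ∃ A : Finset (ZMod p × ZMod p), A = univ.filter (fun z => evalEval z.1 z.2 (bp h') = 0 ∧
      ((bp h').map (evalRingHom z.1)).Separable) := ⟨_, rfl⟩
    have hAc : {z : ZMod p × ZMod p | evalEval z.1 z.2 (bp h') = 0 ∧ ((bp h').map (evalRingHom z.1)).Separable}.ncard = A.card := by
      rw [← Set.ncard_coe_finset, hA]
      congr 1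
      ext z
      simp
    rw [hAc] at hw
    obtain ⟨S, hS⟩ : ∃ S : Finset ℕ, S = (range p).filter (fun t : ℕ => Hit (fib G (t : ℤ)) 1 p 0) := ⟨_, rfl⟩
    have hmon : (bp h').Monic := Pool.Agent.N568.HX.NF.bp_monic h'
    have hAS : A.card ≤ n * S.card := by
      apply card_le_mul_card_image_of_maps_to (f := fun z : ZMod p × ZMod p => z.1.val)
      · intro z hz
        rw [hA, Finset.mem_filter] at hz
        obtain ⟨_, hz1, hz2⟩ := hz
        rw [hS, Finset.mem_filter, Finset.mem_range]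
        refine ⟨ZMod.val_lt z.1, ?_⟩
        rw [hit_iff, fib_map, hbp']
        have e2 : (Int.castRingHom (ZMod p)) ((z.1.val : ℕ) : ℤ) = z.1 := by
          rw [eq_intCast, Int.cast_natCast, ZMod.natCast_zmod_val]
        rw [e2]
        have h3 : ((bp h').map (evalRingHom z.1)).eval z.2 = 0 := by
          rw [map_evalRingHom_eval]
          exact hz1
        refine ⟨z.2, h3, ?_⟩
        have h4 := hz2.aeval_derivative_ne_zero (x := z.2) (by rw [coe_aeval_eq_eval]; exact h3)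
        rw [coe_aeval_eq_eval] at h4
        exact h4
      · intro v _
        have hv : ((bp h').map (evalRingHom ((v : ℕ) : ZMod p))) ≠ 0 := (hmon.map _).ne_zero
        calc (A.filter (fun z => z.1.val = v)).card ≤ ((bp h').map (evalRingHom ((v : ℕ) : ZMod p))).roots.toFinset.card := by
              apply card_le_card_of_injOn (fun z : ZMod p × ZMod p => z.2)
              · intro z hz
                rw [Finset.coe_filter, Set.mem_ofPred_eq, hA, Finset.mem_filter] at hz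
                obtain ⟨⟨_, hz1, _⟩, hz3⟩ := hz
                rw [Finset.mem_coe, Multiset.mem_toFinset, mem_roots hv, IsRoot, map_evalRingHom_eval, ← hz3, ZMod.natCast_zmod_val]
                exact hz1
              · intro z hz z' hz' hzz
                rw [Finset.coe_filter, Set.mem_ofPred_eq] at hz hz'
                have h5 : z.1 = z'.1 := ZMod.val_injective p (hz.2.trans hz'.2.symm)
                exact Prod.ext h5 hzz
          _ ≤ Multiset.card ((bp h').map (evalRingHom ((v : ℕ) : ZMod p))).roots := Multiset.toFinset_card_le _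
          _ ≤ ((bp h').map (evalRingHom ((v : ℕ) : ZMod p))).natDegree := card_roots' _
          _ = n := by rw [hmon.natDegree_map, Pool.Agent.N568.HX.NF.bp_natDegree]
    have hsum : ∑ t ∈ range p, hg G p t = (S.card : ℝ) := by
      unfold hg
      rw [← sum_filter, sum_const, nsmul_eq_mul, mul_one, hS]
    have hp0 : (0 : ℝ) < p := by exact_mod_cast hp.pos
    have hn0 : (0 : ℝ) < n := by exact_mod_cast hn
    unfold mean
    rw [hsum, div_le_div_iff₀ (by positivity) hp0, one_mul]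
    have h5 : (A.card : ℝ) ≤ n * S.card := by exact_mod_cast hAS
    have hs0 : 0 ≤ √(p : ℝ) := Real.sqrt_nonneg _
    have hss : √(p : ℝ) * √(p : ℝ) = p := Real.mul_self_sqrt hp0.le
    have h6 : 2 * (C₀ : ℝ) ≤ √(p : ℝ) := by
      apply Real.le_sqrt_of_sq_le
      have : ((4 * (C₀ * C₀) : ℕ) : ℝ) ≤ p := by exact_mod_cast (by omega : 4 * (C₀ * C₀) ≤ p)
      push_cast at this
      nlinarith
    have h7 : (C₀ : ℝ) * √(p : ℝ) ≤ p / 2 := by
      have : 2 * (C₀ : ℝ) * √(p : ℝ) ≤ √(p : ℝ) * √(p : ℝ) := mul_le_mul_of_nonneg_right h6 hs0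
      rw [hss] at this
      linarith
    linarith

end Pool.Agent.H37CG
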